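import Pool.Agent.Lib.MP_c534e4_co.H71.Sector

/-! # The order cone is a.e. the disjoint union of the sectors of the linear extensions -/

set_option autoImplicit false

open MeasureTheory
open scoped ENNReal

namespace Pool.MP_c534e4_co.H71

variable {α : Type} [Fintype α]

lemma volume_tie {a b : α} (hab : a ≠ b) : volume {t : α → ℝ | t a = t b} = 0 := by
  classical
  let p : Submodule ℝ (α → ℝ) := LinearMap.ker
    ((LinearMap.proj a : (α → ℝ) →ₗ[ℝ] ℝ) - LinearMap.proj b)
  have hp : ({t : α → ℝ | t a = t b} : Set (α → ℝ)) = p := by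
    ext t
    simp only [Set.mem_setOf_eq, SetLike.mem_coe, p, LinearMap.mem_ker, LinearMap.sub_apply,
      LinearMap.proj_apply, sub_eq_zero]
  rw [hp]
  apply Measure.addHaar_submodule
  intro htop
  have : (Pi.single a (1 : ℝ) : α → ℝ) ∈ p := by rw [htop]; trivial
  simp only [p, LinearMap.mem_ker, LinearMap.sub_apply, LinearMap.proj_apply,
    Pi.single_eq_same, Pi.single_eq_of_ne hab.symm] at this
  norm_num at this

lemma ae_injective : ∀ᵐ t : α → ℝ, Function.Injective t := by
  have h : ∀ a b : α, ∀ᵐ t : α → ℝ, t a = t b → a = b := by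
    intro a b
    by_cases hab : a = b
    · exact Filter.Eventually.of_forall fun t _ => hab
    · have := volume_tie hab
      rw [ae_iff]
      refine measure_mono_null ?_ this
      intro t ht
      simp only [Set.mem_setOf_eq, Classical.not_imp] at ht
      exact ht.1
  have h2 : ∀ᵐ t : α → ℝ, ∀ a b : α, t a = t b → a = b := by
    rw [ae_all_iff]
    intro a
    rw [ae_all_iff]
    intro b
    exact h a b
  filter_upwards [h2] with t ht a b hab
  exact ht a b hab

lemma injective_of_mem_sector {n : ℕ} {e : α ≃ Fin n} {t : α → ℝ} (ht : t ∈ sector e) :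
    Function.Injective t := by
  intro a b hab
  by_contra hne
  rcases lt_or_gt_of_ne (e.injective.ne hne) with h | h
  · exact absurd hab (ht a b h).ne
  · exact absurd hab (ht b a h).ne'

lemma sector_unique {n : ℕ} {e e' : α ≃ Fin n} {t : α → ℝ} (ht : t ∈ sector e)
    (ht' : t ∈ sector e') : e = e' := by
  have h1 : StrictMono (t ∘ e.symm) := by
    intro i j hij
    exact ht _ _ (by simpa using hij)
  have h2 : StrictMono (t ∘ e'.symm) := by
    intro i j hij
    exact ht' _ _ (by simpa using hij)
  have h3 : t ∘ e.symm = t ∘ e'.symm := by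
    rw [← h1.range_inj h2, Set.range_comp, Set.range_comp, e.symm.surjective.range_eq,
      e'.symm.surjective.range_eq]
  have hinj := injective_of_mem_sector ht
  have h4 : e.symm = e'.symm := by
    ext i
    exact hinj (congrFun h3 i)
  exact Equiv.symm_bijective.injective h4

lemma exists_sector {n : ℕ} (hn : Fintype.card α = n) {t : α → ℝ} (ht : Function.Injective t) :
    ∃ e : α ≃ Fin n, t ∈ sector e := by
  classical
  have hc : (Finset.univ.image t).card = n := by
    rw [Finset.card_image_of_injective _ ht, Finset.card_univ, hn]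
  let o := (Finset.univ.image t).orderIsoOfFin hc
  let f : α → Fin n := fun a => o.symm ⟨t a, Finset.mem_image_of_mem _ (Finset.mem_univ a)⟩
  have hf : Function.Injective f := by
    intro a b hab
    have := o.symm.injective hab
    exact ht (congrArg Subtype.val this)
  have hb : Function.Bijective f := by
    rw [Fintype.bijective_iff_injective_and_card]
    exact ⟨hf, by rw [hn, Fintype.card_fin]⟩
  refine ⟨Equiv.ofBijective f hb, ?_⟩
  intro a b hab
  have h1 : f a < f b := hab
  have h2 := o.symm.lt_iff_lt.1 h1
  exact h2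

/-- The open order cone of a finite poset. -/
def cone (α : Type) [PartialOrder α] : Set (α → ℝ) := {t | StrictMono t}

variable [PartialOrder α]

lemma measurableSet_cone : MeasurableSet (cone α) := by
  have : cone α = ⋂ a, ⋂ b, ⋂ (_ : a < b), {t : α → ℝ | t a < t b} := by
    ext t
    simp only [cone, Set.mem_setOf_eq, Set.mem_iInter]
    constructor
    · intro h a b hab
      exact h hab
    · intro h a b hab
      exact h a b hab
  rw [this]
  refine MeasurableSet.iInter fun a => MeasurableSet.iInter fun b => MeasurableSet.iInter fun _ => ?_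
  exact measurableSet_lt (measurable_pi_apply a) (measurable_pi_apply b)

lemma sector_subset_cone {n : ℕ} {e : α ≃ Fin n} (he : StrictMono e) : sector e ⊆ cone α :=
  fun _ ht _ _ hab => ht _ _ (he hab)

lemma strictMono_of_mem {n : ℕ} {e : α ≃ Fin n} {t : α → ℝ} (ht : t ∈ sector e)
    (hc : t ∈ cone α) : StrictMono e := by
  intro a b hab
  by_contra hne
  have h1 : e b ≤ e a := not_lt.1 hne
  rcases h1.lt_or_eq with h2 | h2
  · exact absurd (hc hab) (not_lt.2 (ht _ _ h2).le)
  · exact absurd (e.injective h2) hab.ne'

/-- Linear extensions. -/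
abbrev LinExt (α : Type) [Fintype α] [PartialOrder α] : Type :=
  {σ : α ≃ Fin (Fintype.card α) // StrictMono ⇑σ}

noncomputable instance : Fintype (LinExt α) := Fintype.ofFinite _

lemma cone_ae_eq : (cone α : Set (α → ℝ)) =ᵐ[volume] ⋃ σ : LinExt α, sector σ.1 := by
  filter_upwards [ae_injective (α := α)] with t ht
  apply propext
  constructor
  · intro hc
    obtain ⟨e, he⟩ := exists_sector rfl ht
    exact Set.mem_iUnion.2 ⟨⟨e, strictMono_of_mem he hc⟩, he⟩
  · intro h
    obtain ⟨σ, hσ⟩ := Set.mem_iUnion.1 h
    exact sector_subset_cone σ.2 hσ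

lemma pairwise_disjoint_sector :
    Pairwise (Function.onFun Disjoint fun σ : LinExt α => sector σ.1) := by
  intro σ τ hne
  rw [Function.onFun, Set.disjoint_left]
  intro t h1 h2
  exact hne (Subtype.ext (sector_unique h1 h2))

/-- Integration over the order cone, as a sum over linear extensions. -/
theorem lintegral_cone (F : (α → ℝ) → ℝ≥0∞) (hF : Measurable F) :
    ∫⁻ t in cone α, F t = ∑ σ : LinExt α,
      ∫⁻ g in {g : Fin (Fintype.card α) → ℝ | ∀ i : Fin (Fintype.card α), 0 < (i : ℕ) → 0 < g i},
        F (pos σ.1 g) := by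
  have h := lintegral_iUnion (μ := volume) (s := fun σ : LinExt α => sector σ.1)
    (fun σ => measurableSet_sector σ.1) pairwise_disjoint_sector F
  rw [Measure.restrict_congr_set cone_ae_eq, h, tsum_fintype]
  exact Finset.sum_congr rfl fun σ _ => lintegral_sector σ.1 F hF

end Pool.MP_c534e4_co.H71
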