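import Pool.Agent.Lib.MP_c534e4_co.H71.Pin
import Pool.Agent.Lib.MP_c534e4_co.H96.Moments

/-! # Linear extensions with exponential gaps and the pinned Lebesgue density -/

set_option autoImplicit false

open MeasureTheory ProbabilityTheory
open scoped ENNReal

namespace Pool.MP_c534e4_co.H71

variable {α : Type} [Fintype α]

/-- The law of the gaps: independent exponential variables of parameter one. -/
noncomputable def gapLaw (n : ℕ) : Measure (Fin n → ℝ) := Measure.pi fun _ => expMeasure 1

instance : IsProbabilityMeasure (expMeasure 1) := isProbabilityMeasure_expMeasure one_pos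

instance (n : ℕ) : IsProbabilityMeasure (gapLaw n) := by
  unfold gapLaw
  infer_instance

lemma gapLaw_eq (n : ℕ) : gapLaw n =
    (volume : Measure (Fin n → ℝ)).withDensity (fun g => ∏ i, exponentialPDF 1 (g i)) :=
  Pool.Agent.Lib.MP_c534e4_co.H96.pi_exp_eq_withDensity (fun _ : Fin n => (1 : ℝ))
    (fun _ => one_pos)

lemma measurable_dens (n : ℕ) : Measurable fun g : Fin n → ℝ => ∏ i, exponentialPDF 1 (g i) := by
  apply Finset.measurable_prod
  intro i _
  exact (Pool.Agent.Lib.MP_c534e4_co.H96.measurable_expPDF 1).comp (measurable_pi_apply i)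

/-- The set of gap vectors that are positive except possibly at the index `0`. -/
def posGaps (n : ℕ) : Set (Fin n → ℝ) := {g | ∀ i : Fin n, 0 < (i : ℕ) → 0 < g i}

lemma measurableSet_posGaps (n : ℕ) : MeasurableSet (posGaps n) := by
  have : posGaps n = ⋂ i : Fin n, ⋂ (_ : 0 < (i : ℕ)), {g : Fin n → ℝ | 0 < g i} := by
    ext g
    simp [posGaps]
  rw [this]
  refine MeasurableSet.iInter fun i => MeasurableSet.iInter fun _ => ?_
  exact measurableSet_lt measurable_const (measurable_pi_apply i)

lemma lintegral_gapLaw (n : ℕ) (H : (Fin n → ℝ) → ℝ≥0∞) (hH : Measurable H) :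
    ∫⁻ g, H g ∂(gapLaw n) = ∫⁻ g in posGaps n, H g * ∏ i, exponentialPDF 1 (g i) := by
  rw [gapLaw_eq, lintegral_withDensity_eq_lintegral_mul _ (measurable_dens n) hH,
    ← lintegral_indicator (measurableSet_posGaps n)]
  apply lintegral_congr_ae
  have h0 : ∀ᵐ g : Fin n → ℝ, ∀ i, g i ≠ 0 := by
    rw [ae_all_iff]
    intro i
    have := (Measure.quasiMeasurePreserving_eval (fun _ : Fin n => (volume : Measure ℝ)) i).ae
      (p := fun x : ℝ => x ≠ 0) (by rw [ae_iff]; simp)
    exact this
  filter_upwards [h0] with g hg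
  by_cases h : g ∈ posGaps n
  · rw [Set.indicator_of_mem h]
    simp only [Pi.mul_apply]
    rw [mul_comm]
  · rw [Set.indicator_of_notMem h]
    simp only [Pi.mul_apply]
    have : ∃ i, g i < 0 := by
      simp only [posGaps, Set.mem_setOf_eq, not_forall, not_lt] at h
      obtain ⟨i, _, hi⟩ := h
      exact ⟨i, lt_of_le_of_ne hi (hg i)⟩
    obtain ⟨i, hi⟩ := this
    rw [Finset.prod_eq_zero (Finset.mem_univ i) (exponentialPDF_of_neg hi), zero_mul]

/-- Smallest coordinate. -/
noncomputable def mn (t : α → ℝ) : ℝ := ⨅ x, t x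

/-- Largest coordinate. -/
noncomputable def mx (t : α → ℝ) : ℝ := ⨆ x, t x

/-- The weight `exp (-(max - min))`. -/
noncomputable def wt (t : α → ℝ) : ℝ≥0∞ := ENNReal.ofReal (Real.exp (-(mx t - mn t)))

lemma measurable_mn : Measurable (mn : (α → ℝ) → ℝ) := by
  unfold mn
  exact Measurable.iInf fun x => measurable_pi_apply x

lemma measurable_mx : Measurable (mx : (α → ℝ) → ℝ) := by
  unfold mx
  exact Measurable.iSup fun x => measurable_pi_apply x

lemma measurable_wt : Measurable (wt : (α → ℝ) → ℝ≥0∞) := by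
  unfold wt
  exact (Real.measurable_exp.comp (measurable_mx.sub measurable_mn).neg).ennreal_ofReal

lemma mn_add [Nonempty α] (t : α → ℝ) (c : ℝ) : mn (fun x => t x + c) = mn t + c := by
  unfold mn
  rw [ciInf_add (Set.finite_range t).bddBelow]

lemma mx_add [Nonempty α] (t : α → ℝ) (c : ℝ) : mx (fun x => t x + c) = mx t + c := by
  unfold mx
  rw [ciSup_add (Set.finite_range t).bddAbove]

lemma wt_add [Nonempty α] (t : α → ℝ) (c : ℝ) : wt (fun x => t x + c) = wt t := by
  unfold wt
  rw [mn_add, mx_add]
  congr 3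
  ring

lemma mn_pos {m : ℕ} (e : α ≃ Fin (m + 1)) (g : Fin (m + 1) → ℝ) (hg : g ∈ posGaps (m + 1)) :
    mn (pos e g) = g 0 := by
  have hs : StrictMono (cum g) := (cum_lt_iff g).2 hg
  have h0 : cum g 0 = g 0 := by
    unfold cum
    have : Finset.Iic (0 : Fin (m + 1)) = {0} := by
      ext i
      simp
    rw [this, Finset.sum_singleton]
  have : Nonempty α := ⟨e.symm 0⟩
  apply le_antisymm
  · have := ciInf_le (Set.finite_range (pos e g)).bddBelow (e.symm 0)
    simp only [pos, Equiv.apply_symm_apply, h0] at this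
    exact this
  · apply le_ciInf
    intro x
    rw [← h0]
    exact hs.monotone (Fin.zero_le _)

lemma mx_pos {m : ℕ} (e : α ≃ Fin (m + 1)) (g : Fin (m + 1) → ℝ) (hg : g ∈ posGaps (m + 1)) :
    mx (pos e g) = ∑ i, g i := by
  have hs : StrictMono (cum g) := (cum_lt_iff g).2 hg
  have h0 : cum g (Fin.last m) = ∑ i, g i := by
    unfold cum
    have : Finset.Iic (Fin.last m) = Finset.univ := by
      ext i
      simp [Fin.le_last]
    rw [this]
  have : Nonempty α := ⟨e.symm 0⟩
  apply le_antisymm
  · apply ciSup_le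
    intro x
    rw [← h0]
    exact hs.monotone (Fin.le_last _)
  · have := le_ciSup (Set.finite_range (pos e g)).bddAbove (e.symm (Fin.last m))
    simp only [pos, Equiv.apply_symm_apply, h0] at this
    exact this

lemma wt_mul_pos {m : ℕ} (e : α ≃ Fin (m + 1)) (g : Fin (m + 1) → ℝ)
    (hg : g ∈ posGaps (m + 1)) :
    wt (pos e g) * exponentialPDF 1 (mn (pos e g)) = ∏ i, exponentialPDF 1 (g i) := by
  rw [Fin.prod_univ_succ, mn_pos e g hg, mul_comm]
  congr 1
  have h1 : ∀ i : Fin m, exponentialPDF 1 (g i.succ) = ENNReal.ofReal (Real.exp (-(g i.succ))) := by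
    intro i
    rw [exponentialPDF_of_nonneg (hg i.succ (by simp)).le]
    simp
  simp_rw [h1]
  rw [← ENNReal.ofReal_prod_of_nonneg (fun i _ => (Real.exp_pos _).le), ← Real.exp_sum]
  unfold wt
  rw [mn_pos e g hg, mx_pos e g hg, Fin.sum_univ_succ]
  congr 2
  rw [Finset.sum_neg_distrib]
  ring

lemma wt_mul_pos' {n : ℕ} (hn : n ≠ 0) (e : α ≃ Fin n) (g : Fin n → ℝ) (hg : g ∈ posGaps n) :
    wt (pos e g) * exponentialPDF 1 (mn (pos e g)) = ∏ i, exponentialPDF 1 (g i) := by
  obtain ⟨m, rfl⟩ := Nat.exists_eq_succ_of_ne_zero hn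
  exact wt_mul_pos e g hg

variable [PartialOrder α]

/-- **Change of variables.** Integrals against the pinned Lebesgue density `exp (-(max - min))`
on the order cone are sums over linear extensions of integrals over independent exponential
gaps. -/
theorem lintegral_pinned [DecidableEq α] (z : α) (F : (α → ℝ) → ℝ≥0∞) (hF : Measurable F)
    (hinv : ∀ (t : α → ℝ) (c : ℝ), F (fun x => t x + c) = F t) :
    ∫⁻ s : {x : α // x ≠ z} → ℝ, (cone α).indicator (fun t => F t * wt t) (pin z s)
      = ∑ σ : LinExt α, ∫⁻ g, F (pos σ.1 g) ∂(gapLaw (Fintype.card α)) := by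
  have : Nonempty α := ⟨z⟩
  have hpdf := Pool.Agent.Lib.MP_c534e4_co.H96.measurable_expPDF 1
  have hG : Measurable ((cone α).indicator (fun t => F t * wt t)) :=
    (hF.mul measurable_wt).indicator measurableSet_cone
  have hGinv : ∀ (t : α → ℝ) (c : ℝ), (cone α).indicator (fun t => F t * wt t) (fun x => t x + c)
      = (cone α).indicator (fun t => F t * wt t) t := by
    intro t c
    have hc : (fun x => t x + c) ∈ cone α ↔ t ∈ cone α := by
      simp only [cone, Set.mem_setOf_eq, StrictMono]
      constructor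
      · intro h a b hab
        have := h hab
        linarith
      · intro h a b hab
        have := h hab
        linarith
    by_cases h : t ∈ cone α
    · rw [Set.indicator_of_mem h, Set.indicator_of_mem (hc.2 h), hinv, wt_add]
    · rw [Set.indicator_of_notMem h, Set.indicator_of_notMem (fun h' => h (hc.1 h'))]
  rw [lintegral_pin z _ hG hGinv mn measurable_mn mn_add (exponentialPDF 1) hpdf
    (lintegral_exponentialPDF_eq_one one_pos)]
  have h1 : ∀ t : α → ℝ, (cone α).indicator (fun t => F t * wt t) t * exponentialPDF 1 (mn t)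
      = (cone α).indicator (fun t => F t * (wt t * exponentialPDF 1 (mn t))) t := by
    intro t
    by_cases h : t ∈ cone α
    · rw [Set.indicator_of_mem h, Set.indicator_of_mem h, mul_assoc]
    · rw [Set.indicator_of_notMem h, Set.indicator_of_notMem h, zero_mul]
  simp_rw [h1]
  rw [lintegral_indicator measurableSet_cone,
    lintegral_cone (fun t => F t * (wt t * exponentialPDF 1 (mn t)))
      (hF.mul (measurable_wt.mul (hpdf.comp measurable_mn)))]
  apply Finset.sum_congr rfl
  intro σ _
  rw [lintegral_gapLaw _ (fun g => F (pos σ.1 g)) (hF.comp (measurable_pos σ.1))]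
  apply setLIntegral_congr_fun (measurableSet_posGaps _)
  intro g hg
  simp only
  congr 1
  exact wt_mul_pos' Fintype.card_ne_zero σ.1 g hg

end Pool.MP_c534e4_co.H71
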