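import Pool.Agent.Lib.MP_c534e4_co.H71.Cone

/-! # Pinning one coordinate at zero -/

set_option autoImplicit false

open MeasureTheory
open scoped ENNReal

namespace Pool.MP_c534e4_co.H71

variable {α : Type} [Fintype α] [DecidableEq α]

/-- Extension of a vector by the value `0` at `z`. -/
def pin (z : α) (s : {x : α // x ≠ z} → ℝ) : α → ℝ := fun x => if h : x = z then 0 else s ⟨x, h⟩

omit [Fintype α] in
@[simp] lemma pin_self (z : α) (s : {x : α // x ≠ z} → ℝ) : pin z s z = 0 := by simp [pin]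

omit [Fintype α] in
lemma pin_ne (z : α) (s : {x : α // x ≠ z} → ℝ) (x : α) (h : x ≠ z) : pin z s x = s ⟨x, h⟩ := by
  simp [pin, h]

omit [Fintype α] in
lemma measurable_pin (z : α) : Measurable (pin z) := by
  rw [measurable_pi_iff]
  intro x
  by_cases h : x = z
  · subst h
    simp only [pin_self]
    exact measurable_const
  · simp only [pin_ne z _ x h]
    exact measurable_pi_apply _

lemma shear_aux (z : α) (p : α → Prop) [DecidablePred p] (hp : ∀ x, p x ↔ x = z)
    (Φ : (α → ℝ) → ℝ≥0∞) (hΦ : Measurable Φ) :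
    ∫⁻ t, Φ t = ∫⁻ u : ℝ, ∫⁻ b : ({x : α // ¬ p x} → ℝ),
      Φ (fun x => if h : p x then u else b ⟨x, h⟩) := by
  have e1 := (volume_preserving_piEquivPiSubtypeProd (fun _ : α => ℝ) p).symm
  have h1 := e1.lintegral_comp hΦ
  rw [← h1]
  set e := (MeasurableEquiv.piEquivPiSubtypeProd (fun _ : α => ℝ) p).symm with he
  have h2 : ∫⁻ q, Φ (e q) = ∫⁻ a : (Subtype p → ℝ),
      ∫⁻ b : ({x : α // ¬ p x} → ℝ), Φ (e (a, b)) := by
    have := lintegral_prod (μ := (volume : Measure (Subtype p → ℝ)))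
      (ν := (volume : Measure ({x : α // ¬ p x} → ℝ))) (fun q => Φ (e q))
      (hΦ.comp e.measurable).aemeasurable
    exact this
  rw [h2]
  have hm : Measurable fun q : (Subtype p → ℝ) × ({x : α // ¬ p x} → ℝ) =>
      Φ (e q) := hΦ.comp e.measurable
  let U : Unique (Subtype p) :=
    ⟨⟨⟨z, (hp z).2 rfl⟩⟩, fun a => Subtype.ext ((hp _).1 a.2)⟩
  have e2 := (volume_preserving_funUnique (Subtype p) ℝ).symm
  have h3 := e2.lintegral_comp (f := fun a => ∫⁻ b : ({x : α // ¬ p x} → ℝ), Φ (e (a, b)))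
    (hm.lintegral_prod_right')
  have h4 : ∫⁻ a : (Subtype p → ℝ), ∫⁻ b : ({x : α // ¬ p x} → ℝ), Φ (e (a, b))
      = ∫⁻ u : ℝ, ∫⁻ b : ({x : α // ¬ p x} → ℝ),
        Φ (e ((MeasurableEquiv.funUnique (Subtype p) ℝ).symm u, b)) := by
    have hF : (Unique.fintype : Fintype (Subtype p)) = Subtype.fintype p := Subsingleton.elim _ _
    rw [h3, ← hF]
  rw [h4]
  apply lintegral_congr
  intro u
  apply lintegral_congr
  intro b
  rfl

/-- Lebesgue measure on `α → ℝ` is the product of the pinned Lebesgue measure and the Lebesgue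
measure on translations. -/
theorem lintegral_shear (z : α) (Φ : (α → ℝ) → ℝ≥0∞) (hΦ : Measurable Φ) :
    ∫⁻ t, Φ t = ∫⁻ s : {x : α // x ≠ z} → ℝ, ∫⁻ u : ℝ, Φ (fun x => pin z s x + u) := by
  rw [shear_aux z (fun x => x = z) (fun x => Iff.rfl) Φ hΦ]
  have h4 : ∀ u : ℝ, ∫⁻ b : ({x : α // ¬ x = z} → ℝ),
      Φ (fun x => if h : x = z then u else b ⟨x, h⟩)
        = ∫⁻ s : ({x : α // x ≠ z} → ℝ), Φ (fun x => pin z s x + u) := by
    intro u
    have h5 := lintegral_add_right_eq_self (μ := (volume : Measure ({x : α // ¬ x = z} → ℝ)))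
      (fun b => Φ (fun x => if h : x = z then u else b ⟨x, h⟩)) (fun _ => u)
    rw [← h5]
    apply lintegral_congr
    intro s
    congr 1
    funext x
    by_cases h : x = z
    · simp [h]
    · simp [h, pin_ne z s x h]
  simp_rw [h4]
  have hm2 : Measurable fun q : ℝ × ({x : α // x ≠ z} → ℝ) => Φ (fun x => pin z q.2 x + q.1) := by
    apply hΦ.comp
    rw [measurable_pi_iff]
    intro x
    exact ((measurable_pi_apply x).comp ((measurable_pin z).comp measurable_snd)).add measurable_fst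
  exact lintegral_lintegral_swap hm2.aemeasurable

/-- For a translation invariant function, the pinned integral can be computed as an integral
over the whole space with any weight. -/
theorem lintegral_pin (z : α) (G : (α → ℝ) → ℝ≥0∞) (hG : Measurable G)
    (hinv : ∀ (t : α → ℝ) (c : ℝ), G (fun x => t x + c) = G t)
    (m : (α → ℝ) → ℝ) (hm : Measurable m) (hmc : ∀ (t : α → ℝ) (c : ℝ), m (fun x => t x + c) = m t + c)
    (k : ℝ → ℝ≥0∞) (hk : Measurable k) (hk1 : ∫⁻ u, k u = 1) :
    ∫⁻ s : {x : α // x ≠ z} → ℝ, G (pin z s) = ∫⁻ t, G t * k (m t) := by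
  rw [lintegral_shear z (fun t => G t * k (m t)) (hG.mul (hk.comp hm))]
  apply lintegral_congr
  intro s
  have : ∀ u : ℝ, G (fun x => pin z s x + u) * k (m fun x => pin z s x + u)
      = G (pin z s) * k (m (pin z s) + u) := by
    intro u
    rw [hinv, hmc]
  simp_rw [this]
  rw [lintegral_const_mul _ (by fun_prop)]
  have h2 : ∫⁻ u, k (m (pin z s) + u) = ∫⁻ u, k u := lintegral_add_left_eq_self k _
  rw [h2, hk1, mul_one]

end Pool.MP_c534e4_co.H71
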