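import Mathlib

/-! # Sectors of `α → ℝ` and cumulative sums -/

set_option autoImplicit false

open MeasureTheory
open scoped ENNReal

namespace Pool.MP_c534e4_co.H71

/-- Cumulative sums. -/
noncomputable def cum {n : ℕ} (g : Fin n → ℝ) (i : Fin n) : ℝ := ∑ j ∈ Finset.Iic i, g j

/-- The matrix of `cum`. -/
noncomputable def cumM (n : ℕ) : Matrix (Fin n) (Fin n) ℝ := fun i j => if j ≤ i then 1 else 0

lemma toLin'_cumM {n : ℕ} (g : Fin n → ℝ) : Matrix.toLin' (cumM n) g = cum g := by
  ext i
  simp only [Matrix.toLin'_apply, Matrix.mulVec, dotProduct, cumM, cum]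
  have : Finset.Iic i = Finset.univ.filter (fun j => j ≤ i) := by ext; simp
  rw [this, Finset.sum_filter]
  apply Finset.sum_congr rfl
  intro u _
  by_cases h : u ≤ i <;> simp [h]

lemma det_cumM (n : ℕ) : (cumM n).det = 1 := by
  have h : (cumM n).BlockTriangular OrderDual.toDual := by
    intro i j hij
    have : i < j := hij
    simp only [cumM]
    rw [if_neg (not_le.2 this)]
  rw [Matrix.det_of_lowerTriangular _ h]
  simp [cumM]

lemma map_cum {n : ℕ} : Measure.map (cum : (Fin n → ℝ) → (Fin n → ℝ)) volume = volume := by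
  have h := Real.map_matrix_volume_pi_eq_smul_volume_pi (M := cumM n) (by rw [det_cumM]; simp)
  rw [det_cumM] at h
  have e : (⇑(Matrix.toLin' (cumM n)) : (Fin n → ℝ) → (Fin n → ℝ)) = cum := by
    funext g
    exact toLin'_cumM g
  rw [e] at h
  simpa using h

lemma measurable_cum {n : ℕ} : Measurable (cum : (Fin n → ℝ) → (Fin n → ℝ)) := by
  unfold cum
  fun_prop

lemma measurePreserving_cum {n : ℕ} :
    MeasurePreserving (cum : (Fin n → ℝ) → (Fin n → ℝ)) volume volume :=
  ⟨measurable_cum, map_cum⟩

lemma cum_lt_iff {n : ℕ} (g : Fin n → ℝ) :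
    StrictMono (cum g) ↔ ∀ i : Fin n, 0 < (i : ℕ) → 0 < g i := by
  constructor
  · intro h i hi
    have h1 : (⟨(i : ℕ) - 1, by omega⟩ : Fin n) < i := by
      rw [Fin.lt_def]
      simp only
      omega
    have h2 := h h1
    have h3 : cum g i = cum g ⟨(i : ℕ) - 1, by omega⟩ + g i := by
      unfold cum
      have : Finset.Iic i = insert i (Finset.Iic (⟨(i : ℕ) - 1, by omega⟩ : Fin n)) := by
        ext j
        simp only [Finset.mem_Iic, Finset.mem_insert, Fin.le_def, Fin.ext_iff]
        omega
      rw [this, Finset.sum_insert, add_comm]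
      simp only [Finset.mem_Iic, Fin.le_def]
      omega
    linarith
  · intro h i j hij
    have hs : Finset.Iic j = Finset.Iic i ∪ Finset.Ioc i j := by
      ext k
      simp only [Finset.mem_Iic, Finset.mem_union, Finset.mem_Ioc, Fin.le_def, Fin.lt_def]
      have := Fin.lt_def.1 hij
      omega
    unfold cum
    rw [hs, Finset.sum_union]
    · have : 0 < ∑ k ∈ Finset.Ioc i j, g k := by
        apply Finset.sum_pos
        · intro k hk
          apply h
          have := (Finset.mem_Ioc.1 hk).1
          rw [Fin.lt_def] at this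
          omega
        · exact ⟨j, Finset.mem_Ioc.2 ⟨hij, le_rfl⟩⟩
      linarith
    · rw [Finset.disjoint_left]
      intro k hk hk2
      exact absurd (Finset.mem_Iic.1 hk) (not_le.2 (Finset.mem_Ioc.1 hk2).1)

variable {α : Type} [Fintype α]

/-- The sector of an enumeration: points whose coordinates are ordered as prescribed by `e`. -/
def sector {n : ℕ} (e : α ≃ Fin n) : Set (α → ℝ) := {t | ∀ a b, e a < e b → t a < t b}

/-- Positions from gaps. -/
noncomputable def pos {n : ℕ} (e : α ≃ Fin n) (g : Fin n → ℝ) : α → ℝ := fun a => cum g (e a)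

lemma measurePreserving_reindex {n : ℕ} (e : α ≃ Fin n) :
    MeasurePreserving (fun (h : Fin n → ℝ) (a : α) => h (e a)) volume volume := by
  have h := volume_measurePreserving_piCongrLeft (fun _ : α => ℝ) e.symm
  have e1 : (⇑(MeasurableEquiv.piCongrLeft (fun _ : α => ℝ) e.symm) : (Fin n → ℝ) → (α → ℝ))
      = fun (h : Fin n → ℝ) (a : α) => h (e a) := by
    funext f a
    have := MeasurableEquiv.piCongrLeft_apply_apply (e := e.symm) (β := fun _ : α => ℝ) f (e a)
    simpa using this
  rw [e1] at h
  exact h

lemma measurePreserving_pos {n : ℕ} (e : α ≃ Fin n) :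
    MeasurePreserving (pos e) volume volume :=
  (measurePreserving_reindex e).comp measurePreserving_cum

lemma measurable_pos {n : ℕ} (e : α ≃ Fin n) : Measurable (pos e) :=
  (measurePreserving_pos e).measurable

lemma pos_mem_sector {n : ℕ} (e : α ≃ Fin n) (g : Fin n → ℝ) :
    pos e g ∈ sector e ↔ ∀ i : Fin n, 0 < (i : ℕ) → 0 < g i := by
  rw [← cum_lt_iff]
  constructor
  · intro h i j hij
    have := h (e.symm i) (e.symm j) (by simpa using hij)
    simpa [pos] using this
  · intro h a b hab
    exact h hab

lemma measurableSet_sector {n : ℕ} (e : α ≃ Fin n) : MeasurableSet (sector e) := by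
  have : sector e = ⋂ a, ⋂ b, ⋂ (_ : e a < e b), {t : α → ℝ | t a < t b} := by
    ext t
    simp [sector]
  rw [this]
  refine MeasurableSet.iInter fun a => MeasurableSet.iInter fun b => MeasurableSet.iInter fun _ => ?_
  exact measurableSet_lt (measurable_pi_apply a) (measurable_pi_apply b)

/-- Integration over a sector in terms of gaps. -/
theorem lintegral_sector {n : ℕ} (e : α ≃ Fin n) (F : (α → ℝ) → ℝ≥0∞) (hF : Measurable F) :
    ∫⁻ t in sector e, F t
      = ∫⁻ g in {g : Fin n → ℝ | ∀ i : Fin n, 0 < (i : ℕ) → 0 < g i}, F (pos e g) := by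
  have h := (measurePreserving_pos e).setLIntegral_comp_preimage (measurableSet_sector e) hF
  rw [← h]
  congr 2
  ext g
  exact (pos_mem_sector e g)

end Pool.MP_c534e4_co.H71
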